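import Mathlib
import Pool.Agent.H402.FF.Stm
import Pool.Graph.R_pool_sql_team_seeded_1e53cb71.Helper41K9.SR.Lower

set_option autoImplicit false

open Finset

namespace Pool.Agent.H177.FF_CORE

open Pool.Agent.H402.FF Pool.Agent.Helper41K9.SR

universe u

/-- adding a slice -/
lemma sl_add {F X Y Z : Type*} [Field F] (T S : X → Y → Z → F) (k : ℕ) (hT : SL T k)
    (hS : (∃ (a : X → F) (g : Y → Z → F), ∀ x y z, S x y z = a x * g y z) ∨
      (∃ (b : Y → F) (h : X → Z → F), ∀ x y z, S x y z = b y * h x z) ∨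
      (∃ (c : Z → F) (e : X → Y → F), ∀ x y z, S x y z = c z * e x y)) :
    SL (fun x y z => T x y z + S x y z) (k + 1) := by
  obtain ⟨p, q, r, hk, a, g, b, h, c, e, hT⟩ := hT
  rcases hS with ⟨a', g', hS⟩ | ⟨b', h', hS⟩ | ⟨c', e', hS⟩
  · refine ⟨p + 1, q, r, by omega, Fin.snoc (α := fun _ => X → F) a a', Fin.snoc (α := fun _ => Y → Z → F) g g',
      b, h, c, e, ?_⟩
    intro x y z
    rw [Fin.sum_univ_castSucc]
    simp only [Fin.snoc_castSucc, Fin.snoc_last]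
    rw [hT, hS]
    ring
  · refine ⟨p, q + 1, r, by omega, a, g, Fin.snoc (α := fun _ => Y → F) b b', Fin.snoc (α := fun _ => X → Z → F) h h',
      c, e, ?_⟩
    intro x y z
    rw [Fin.sum_univ_castSucc (n := q)]
    simp only [Fin.snoc_castSucc, Fin.snoc_last]
    rw [hT, hS]
    ring
  · refine ⟨p, q, r + 1, by omega, a, g, b, h, Fin.snoc (α := fun _ => Z → F) c c',
      Fin.snoc (α := fun _ => X → Y → F) e e', ?_⟩
    intro x y z
    rw [Fin.sum_univ_castSucc (n := r)]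
    simp only [Fin.snoc_castSucc, Fin.snoc_last]
    rw [hT, hS]
    ring

/-- a slice in the sense of the library is a slice -/
lemma slice_of {F X Y Z α : Type*} [Field F] (S : (Fin 3 → α) → F) (hS : IsSliceFn S) (i₀ : X → α) (i₁ : Y → α)
    (i₂ : Z → α) :
    (∃ (a : X → F) (g : Y → Z → F), ∀ x y z, S ![i₀ x, i₁ y, i₂ z] = a x * g y z) ∨
      (∃ (b : Y → F) (h : X → Z → F), ∀ x y z, S ![i₀ x, i₁ y, i₂ z] = b y * h x z) ∨
      (∃ (c : Z → F) (e : X → Y → F), ∀ x y z, S ![i₀ x, i₁ y, i₂ z] = c z * e x y) := by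
  obtain ⟨i, f, g, hg, hS⟩ := hS
  fin_cases i
  · left
    refine ⟨fun x => f (i₀ x), fun y z => g ![i₁ y, i₁ y, i₂ z], fun x y z => ?_⟩
    rw [hS, hg ![i₀ x, i₁ y, i₂ z] ![i₁ y, i₁ y, i₂ z]]
    · rfl
    · intro j hj
      fin_cases j
      · exact absurd rfl hj
      · rfl
      · rfl
  · right; left
    refine ⟨fun y => f (i₁ y), fun x z => g ![i₀ x, i₀ x, i₂ z], fun x y z => ?_⟩
    rw [hS, hg ![i₀ x, i₁ y, i₂ z] ![i₀ x, i₀ x, i₂ z]]
    · rfl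
    · intro j hj
      fin_cases j
      · rfl
      · exact absurd rfl hj
      · rfl
  · right; right
    refine ⟨fun z => f (i₂ z), fun x y => g ![i₀ x, i₁ y, i₁ y], fun x y z => ?_⟩
    rw [hS, hg ![i₀ x, i₁ y, i₂ z] ![i₀ x, i₁ y, i₁ y]]
    · rfl
    · intro j hj
      fin_cases j
      · rfl
      · rfl
      · exact absurd rfl hj

/-- sums of slices -/
lemma sl_of_slices {F X Y Z α : Type*} [Field F] (i₀ : X → α) (i₁ : Y → α) (i₂ : Z → α) (r : ℕ) :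
    ∀ (S : Fin r → (Fin 3 → α) → F), (∀ j, IsSliceFn (S j)) →
      SL (fun x y z => ∑ j, S j ![i₀ x, i₁ y, i₂ z]) (r + 1) := by
  induction r with
  | zero =>
    intro S _
    exact ⟨0, 0, 0, by omega, fun i => i.elim0, fun i => i.elim0, fun i => i.elim0, fun i => i.elim0,
      fun i => i.elim0, fun i => i.elim0, fun x y z => by simp⟩
  | succ r ih =>
    intro S hS
    have h1 := ih (fun j => S j.castSucc) (fun j => hS _)
    have h2 := sl_add _ (fun x y z => S (Fin.last r) ![i₀ x, i₁ y, i₂ z]) _ h1 (slice_of _ (hS _) i₀ i₁ i₂)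
    have e : (fun (x : X) (y : Y) (z : Z) => ∑ j, S j ![i₀ x, i₁ y, i₂ z]) =
        fun x y z => ∑ j : Fin r, S j.castSucc ![i₀ x, i₁ y, i₂ z] + S (Fin.last r) ![i₀ x, i₁ y, i₂ z] := by
      funext x y z
      rw [Fin.sum_univ_castSucc]
    rw [e]
    exact h2

/-- monotonicity -/
lemma sl_mono {F X Y Z : Type*} [Field F] {T : X → Y → Z → F} {k l : ℕ} (h : SL T k) (hkl : k ≤ l) : SL T l := by
  obtain ⟨p, q, r, hk, h⟩ := h
  exact ⟨p, q, r, by omega, h⟩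

/-- enumeration with repetitions -/
lemma enum {n K : ℕ} (hn : 0 < n) (hK : 0 < K) (Z : Finset (Fin n)) (hZ : Z.card ≤ K) :
    ∃ (e : Fin K → Fin n) (σ : Fin n → Fin K), ∀ z ∈ Z, e (σ z) = z := by
  classical
  obtain ⟨f⟩ : Nonempty (Z ↪ Fin K) := Function.Embedding.nonempty_of_card_le (by simpa using hZ)
  refine ⟨fun i => if h : ∃ z : Z, f z = i then (h.choose : Fin n) else ⟨0, hn⟩,
    fun z => if hz : z ∈ Z then f ⟨z, hz⟩ else ⟨0, hK⟩, fun z hz => ?_⟩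
  have h1 : ∃ z' : Z, f z' = f ⟨z, hz⟩ := ⟨_, rfl⟩
  simp only [hz, dite_true, h1]
  rw [f.injective h1.choose_spec]

lemma sl_zero_of_empty {F X Y Z : Type*} [Field F] (T : X → Y → Z → F) (k : ℕ) (hk : 0 < k)
    (h : ∀ (_ : X) (_ : Y) (_ : Z), False) : SL T k :=
  ⟨0, 0, 0, by omega, fun i => i.elim0, fun i => i.elim0, fun i => i.elim0, fun i => i.elim0,
      fun i => i.elim0, fun i => i.elim0, fun x y z => (h x y z).elim⟩

theorem holds : S_core.{u} := by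
  intro m
  refine ⟨144 ^ 3 * m, ?_⟩
  intro F _ n₁ n₂ n₃ T hT
  classical
  rcases Nat.eq_zero_or_pos m with rfl | hm
  · refine ⟨fun i => Fin.elim0 (by simpa using i), fun i => Fin.elim0 (by simpa using i),
      fun i => Fin.elim0 (by simpa using i), ?_⟩
    rintro ⟨p, q, r, h, -⟩
    omega
  set K := 144 ^ 3 * m with hK
  have hK0 : 0 < K := by positivity
  have hn1 : 0 < n₁ := by
    by_contra h
    exact hT (sl_zero_of_empty T K hK0 (fun x _ _ => h (by have := x.2; omega)))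
  have hn2 : 0 < n₂ := by
    by_contra h
    exact hT (sl_zero_of_empty T K hK0 (fun _ x _ => h (by have := x.2; omega)))
  have hn3 : 0 < n₃ := by
    by_contra h
    exact hT (sl_zero_of_empty T K hK0 (fun _ _ x => h (by have := x.2; omega)))
  set n := n₁ + n₂ + n₃ with hn
  have hn0 : 0 < n := by omega
  -- projections
  obtain ⟨π₀, ι₀, h0⟩ : ∃ (π : Fin n → Fin n₁) (ι : Fin n₁ → Fin n), ∀ x, π (ι x) = x :=
    ⟨fun y => if h : (y : ℕ) < n₁ then ⟨y, h⟩ else ⟨0, hn1⟩, fun x => ⟨x, by have := x.2; omega⟩, fun x => by simp⟩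
  obtain ⟨π₁, ι₁, h1⟩ : ∃ (π : Fin n → Fin n₂) (ι : Fin n₂ → Fin n), ∀ x, π (ι x) = x :=
    ⟨fun y => if h : (y : ℕ) < n₂ then ⟨y, h⟩ else ⟨0, hn2⟩, fun x => ⟨x, by have := x.2; omega⟩, fun x => by simp⟩
  obtain ⟨π₂, ι₂, h2⟩ : ∃ (π : Fin n → Fin n₃) (ι : Fin n₃ → Fin n), ∀ x, π (ι x) = x :=
    ⟨fun y => if h : (y : ℕ) < n₃ then ⟨y, h⟩ else ⟨0, hn3⟩, fun x => ⟨x, by have := x.2; omega⟩, fun x => by simp⟩
  obtain ⟨t, ht⟩ : ∃ t : (Fin 3 → Fin n) → F, t = fun y => T (π₀ (y 0)) (π₁ (y 1)) (π₂ (y 2)) := ⟨_, rfl⟩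
  have hs0 : ∀ r, HasSR r t → 144 ^ 3 * m ≤ r := by
    rintro r ⟨S, hS, htS⟩
    by_contra hlt
    apply hT
    have h3 := sl_of_slices ι₀ ι₁ ι₂ r S hS
    have e : (fun (x : Fin n₁) (y : Fin n₂) (z : Fin n₃) => ∑ j, S j ![ι₀ x, ι₁ y, ι₂ z]) = T := by
      funext x y z
      rw [← htS, ht]
      show T (π₀ (ι₀ x)) (π₁ (ι₁ y)) (π₂ (ι₂ z)) = T x y z
      rw [h0, h1, h2]
    rw [e] at h3
    exact sl_mono h3 (by omega)
  obtain ⟨Z0, hZ0, hc0⟩ := cut_one t 0 (144 ^ 3 * m) hs0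
  obtain ⟨Z1, hZ1, hc1⟩ := cut_one (fun y => if y 0 ∈ Z0 then t y else 0) 1 (144 ^ 2 * m) (by
    intro r hr
    have := hc0 r hr
    omega)
  obtain ⟨Z2, hZ2, hc2⟩ := cut_one (fun y => if y 1 ∈ Z1 then (if y 0 ∈ Z0 then t y else 0) else 0) 2 (144 * m) (by
    intro r hr
    have := hc1 r hr
    omega)
  obtain ⟨e₀, σ₀, he₀⟩ := enum hn0 hK0 Z0 hZ0
  obtain ⟨e₁, σ₁, he₁⟩ := enum hn0 hK0 Z1 (by omega)
  obtain ⟨e₂, σ₂, he₂⟩ := enum hn0 hK0 Z2 (by omega)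
  refine ⟨fun i => π₀ (e₀ i), fun i => π₁ (e₁ i), fun i => π₂ (e₂ i), ?_⟩
  rintro ⟨p, q, r, hpqr, a, g, b, h, c, e, hdec⟩
  have hSR : HasSR (Finset.univ : Finset (Fin p ⊕ Fin q ⊕ Fin r)).card
      (fun y : Fin 3 → Fin n => if y 2 ∈ Z2 then (if y 1 ∈ Z1 then (if y 0 ∈ Z0 then t y else 0) else 0) else 0) := by
    apply hasSR_of_finset Finset.univ (fun (s : Fin p ⊕ Fin q ⊕ Fin r) (y : Fin 3 → Fin n) =>
      Sum.elim (fun i => (if y 0 ∈ Z0 then a i (σ₀ (y 0)) else 0) *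
          (if y 1 ∈ Z1 ∧ y 2 ∈ Z2 then g i (σ₁ (y 1)) (σ₂ (y 2)) else 0))
        (Sum.elim (fun i => (if y 1 ∈ Z1 then b i (σ₁ (y 1)) else 0) *
            (if y 0 ∈ Z0 ∧ y 2 ∈ Z2 then h i (σ₀ (y 0)) (σ₂ (y 2)) else 0))
          (fun i => (if y 2 ∈ Z2 then c i (σ₂ (y 2)) else 0) *
            (if y 0 ∈ Z0 ∧ y 1 ∈ Z1 then e i (σ₀ (y 0)) (σ₁ (y 1)) else 0))) s)
    · rintro (i | i | i) -
      · refine ⟨0, fun v => if v ∈ Z0 then a i (σ₀ v) else 0,
          fun y => if y 1 ∈ Z1 ∧ y 2 ∈ Z2 then g i (σ₁ (y 1)) (σ₂ (y 2)) else 0, ?_, fun y => rfl⟩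
        intro x y hxy
        simp only
        rw [hxy 1 (by decide), hxy 2 (by decide)]
      · refine ⟨1, fun v => if v ∈ Z1 then b i (σ₁ v) else 0,
          fun y => if y 0 ∈ Z0 ∧ y 2 ∈ Z2 then h i (σ₀ (y 0)) (σ₂ (y 2)) else 0, ?_, fun y => rfl⟩
        intro x y hxy
        simp only
        rw [hxy 0 (by decide), hxy 2 (by decide)]
      · refine ⟨2, fun v => if v ∈ Z2 then c i (σ₂ v) else 0,
          fun y => if y 0 ∈ Z0 ∧ y 1 ∈ Z1 then e i (σ₀ (y 0)) (σ₁ (y 1)) else 0, ?_, fun y => rfl⟩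
        intro x y hxy
        simp only
        rw [hxy 0 (by decide), hxy 1 (by decide)]
    · intro y
      rw [Fintype.sum_sum_type, Fintype.sum_sum_type]
      simp only [Sum.elim_inl, Sum.elim_inr]
      by_cases y0 : y 0 ∈ Z0
      · by_cases y1 : y 1 ∈ Z1
        · by_cases y2 : y 2 ∈ Z2
          · simp only [y0, y1, y2, and_self, if_true]
            have := hdec (σ₀ (y 0)) (σ₁ (y 1)) (σ₂ (y 2))
            simp only [he₀ _ y0, he₁ _ y1, he₂ _ y2] at this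
            rw [ht]
            simp only
            rw [this, add_assoc]
          · simp [y0, y1, y2]
        · simp [y0, y1]
      · simp [y0]
  have h9 := hc2 _ hSR
  rw [Finset.card_univ, Fintype.card_sum, Fintype.card_sum, Fintype.card_fin, Fintype.card_fin, Fintype.card_fin] at h9
  omega

end Pool.Agent.H177.FF_CORE
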