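import Pool.Agent.H770.GS.TF

/-!
# TF5 (helper177): a product inequality for `sinc`
-/

set_option autoImplicit false

open Filter Topology Finset

namespace Pool.Agent.H177.TF5

/-- the factors of Euler's product -/
noncomputable def fac (τ : ℝ) (j : ℕ) : ℝ := (τ / Real.pi) ^ 2 / ((j : ℝ) + 1) ^ 2

/-- Euler's product for `sinc` -/
theorem lim_sinc (x : ℝ) :
    Tendsto (fun n : ℕ => ∏ j ∈ range n, (1 - fac x j)) atTop (𝓝 (Real.sinc x)) := by
  rcases eq_or_ne x 0 with rfl | hx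
  · have h : ∀ n : ℕ, ∏ j ∈ range n, (1 - fac 0 j) = 1 := by
      intro n
      refine Finset.prod_eq_one fun j _ => ?_
      unfold fac
      simp
    simp only [h, Real.sinc_zero]
    exact tendsto_const_nhds
  · have h1 := Real.tendsto_euler_sin_prod (x / Real.pi)
    have hpi : Real.pi ≠ 0 := Real.pi_ne_zero
    have h2 : Real.pi * (x / Real.pi) = x := by field_simp
    rw [h2] at h1
    have h3 := h1.const_mul x⁻¹
    rw [Real.sinc_of_ne_zero hx]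
    have h4 : Real.sin x / x = x⁻¹ * Real.sin x := by rw [div_eq_inv_mul]
    rw [h4]
    refine h3.congr fun n => ?_
    rw [← mul_assoc, inv_mul_cancel₀ hx, one_mul]
    rfl

/-- the same with the square of the argument as variable -/
theorem lim_sqrt (τ w : ℝ) (hw : 0 ≤ w) :
    Tendsto (fun n : ℕ => ∏ j ∈ range n, (1 - w * fac τ j)) atTop
      (𝓝 (Real.sinc (√w * τ))) := by
  refine (lim_sinc (√w * τ)).congr fun n => Finset.prod_congr rfl fun j _ => ?_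
  unfold fac
  rw [mul_div_assoc, mul_pow, Real.sq_sqrt hw, mul_div_assoc]

theorem fac_nonneg (τ : ℝ) (j : ℕ) : 0 ≤ fac τ j := by
  unfold fac
  positivity

theorem fac_le {τ : ℝ} (h0 : 0 ≤ τ) (h1 : τ ≤ Real.pi) (j : ℕ) : fac τ j ≤ 1 := by
  unfold fac
  have h2 : 0 ≤ τ / Real.pi := div_nonneg h0 Real.pi_pos.le
  have h3 : τ / Real.pi ≤ 1 := (div_le_one Real.pi_pos).2 h1
  have h4 : (τ / Real.pi) ^ 2 ≤ 1 := pow_le_one₀ h2 h3
  have h5 : (0 : ℝ) ≤ j := Nat.cast_nonneg j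
  rw [div_le_one (by positivity)]
  nlinarith

theorem one_sub_nonneg {τ w : ℝ} (h0 : 0 ≤ τ) (h1 : τ ≤ Real.pi) (hw0 : 0 ≤ w) (hw1 : w ≤ 1)
    (j : ℕ) : 0 ≤ 1 - w * fac τ j := by
  have h2 := fac_nonneg τ j
  have h3 := fac_le h0 h1 j
  nlinarith

theorem sinc_nonneg {τ w : ℝ} (h0 : 0 ≤ τ) (h1 : τ ≤ Real.pi) (hw0 : 0 ≤ w) (hw1 : w ≤ 1) :
    0 ≤ Real.sinc (√w * τ) :=
  ge_of_tendsto' (lim_sqrt τ w hw0) fun n =>
    Finset.prod_nonneg fun j _ => one_sub_nonneg h0 h1 hw0 hw1 j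

/-- Step 1: comparison of the factors -/
theorem step1 {τ p q : ℝ} (h0 : 0 ≤ τ) (h1 : τ ≤ Real.pi) (hp0 : 0 ≤ p) (hp1 : p ≤ 1)
    (hq0 : 0 ≤ q) (hq1 : q ≤ 1) :
    Real.sinc (√(p * q) * τ) * Real.sinc (√(1 - (1 - p) * (1 - q)) * τ) ≤
      Real.sinc (√p * τ) * Real.sinc (√q * τ) := by
  have hpq0 : 0 ≤ p * q := mul_nonneg hp0 hq0
  have hpq1 : p * q ≤ 1 := by nlinarith
  have hs1 : 1 - (1 - p) * (1 - q) ≤ 1 := by nlinarith
  have hs0 : 0 ≤ 1 - (1 - p) * (1 - q) := by nlinarith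
  refine le_of_tendsto_of_tendsto' ((lim_sqrt τ _ hpq0).mul (lim_sqrt τ _ hs0))
    ((lim_sqrt τ _ hp0).mul (lim_sqrt τ _ hq0)) fun n => ?_
  rw [← Finset.prod_mul_distrib, ← Finset.prod_mul_distrib]
  refine Finset.prod_le_prod (fun j _ => mul_nonneg (one_sub_nonneg h0 h1 hpq0 hpq1 j)
    (one_sub_nonneg h0 h1 hs0 hs1 j)) fun j _ => ?_
  have h2 : (1 - p * fac τ j) * (1 - q * fac τ j) -
      (1 - p * q * fac τ j) * (1 - (1 - (1 - p) * (1 - q)) * fac τ j) =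
      p * q * ((1 - p) * (1 - q)) * fac τ j ^ 2 := by ring
  have h3 : 0 ≤ p * q * ((1 - p) * (1 - q)) * fac τ j ^ 2 :=
    mul_nonneg (mul_nonneg hpq0 (mul_nonneg (by linarith) (by linarith))) (sq_nonneg _)
  linarith

/-- the finite products are nonnegative, decreasing and convex -/
theorem convex_prod {τ : ℝ} (h0 : 0 ≤ τ) (h1 : τ ≤ Real.pi) (n : ℕ) :
    ConvexOn ℝ (Set.Icc 0 1) (fun w : ℝ => ∏ j ∈ range n, (1 - w * fac τ j)) ∧
    AntitoneOn (fun w : ℝ => ∏ j ∈ range n, (1 - w * fac τ j)) (Set.Icc 0 1) := by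
  induction n with
  | zero =>
    simp only [Finset.range_zero, Finset.prod_empty]
    exact ⟨convexOn_const _ (convex_Icc _ _), antitoneOn_const⟩
  | succ n ih =>
    have hc : ConvexOn ℝ (Set.Icc 0 1) (fun w : ℝ => 1 - w * fac τ n) := by
      refine ⟨convex_Icc _ _, fun x _ y _ a b _ _ hab => ?_⟩
      simp only [smul_eq_mul]
      apply le_of_eq
      have : a = 1 - b := by linarith
      subst this
      ring
    have ha : AntitoneOn (fun w : ℝ => 1 - w * fac τ n) (Set.Icc 0 1) := by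
      intro x _ y _ hxy
      have := mul_le_mul_of_nonneg_right hxy (fac_nonneg τ n)
      change 1 - y * fac τ n ≤ 1 - x * fac τ n
      linarith
    have hn : ∀ w ∈ Set.Icc (0 : ℝ) 1, 0 ≤ ∏ j ∈ range n, (1 - w * fac τ j) := fun w hw =>
      Finset.prod_nonneg fun j _ => one_sub_nonneg h0 h1 hw.1 hw.2 j
    have hn' : ∀ w ∈ Set.Icc (0 : ℝ) 1, 0 ≤ 1 - w * fac τ n := fun w hw =>
      one_sub_nonneg h0 h1 hw.1 hw.2 n
    simp only [Finset.prod_range_succ]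
    refine ⟨ConvexOn.mul ih.1 hc (fun w hw => hn w hw) (fun w hw => hn' w hw)
      (ih.2.monovaryOn ha), fun x hx y hy hxy => ?_⟩
    exact mul_le_mul (ih.2 hx hy hxy) (ha hx hy hxy) (hn' y hy) (hn x hx)

/-- convexity of `w ↦ sinc (√w τ)` -/
theorem convex_sinc {τ : ℝ} (h0 : 0 ≤ τ) (h1 : τ ≤ Real.pi) :
    ConvexOn ℝ (Set.Icc 0 1) (fun w : ℝ => Real.sinc (√w * τ)) := by
  refine ⟨convex_Icc _ _, fun x hx y hy a b ha hb hab => ?_⟩
  have hxy : a • x + b • y ∈ Set.Icc (0 : ℝ) 1 := convex_Icc _ _ hx hy ha hb hab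
  refine le_of_tendsto_of_tendsto' (lim_sqrt τ _ hxy.1)
    (((lim_sqrt τ x hx.1).const_mul a).add ((lim_sqrt τ y hy.1).const_mul b)) fun n => ?_
  exact (convex_prod h0 h1 n).1.2 hx hy ha hb hab

/-- the derivative at `1` -/
theorem deriv_sinc {τ : ℝ} (h0 : 0 < τ) :
    HasDerivAt (fun w : ℝ => Real.sinc (√w * τ)) ((Real.cos τ - Real.sinc τ) / 2) 1 := by
  have h1 : HasDerivAt (fun w : ℝ => √w * τ) (1 / (2 * √1) * τ) 1 :=
    (Real.hasDerivAt_sqrt one_ne_zero).mul_const τ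
  have h2 : HasDerivAt (fun w : ℝ => Real.sin (√w * τ) / (√w * τ))
      ((Real.cos (√1 * τ) * (1 / (2 * √1) * τ) * (√1 * τ) -
        Real.sin (√1 * τ) * (1 / (2 * √1) * τ)) / (√1 * τ) ^ 2) 1 := by
    refine h1.sin.div h1 ?_
    rw [Real.sqrt_one, one_mul]
    exact h0.ne'
  have h3 : (fun w : ℝ => Real.sinc (√w * τ)) =ᶠ[𝓝 1]
      (fun w : ℝ => Real.sin (√w * τ) / (√w * τ)) := by
    filter_upwards [lt_mem_nhds (zero_lt_one (α := ℝ))] with w hw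
    rw [Real.sinc_of_ne_zero]
    exact (mul_pos (Real.sqrt_pos.2 hw) h0).ne'
  have h4 := h2.congr_of_eventuallyEq h3
  have h5 : (Real.cos (√1 * τ) * (1 / (2 * √1) * τ) * (√1 * τ) -
        Real.sin (√1 * τ) * (1 / (2 * √1) * τ)) / (√1 * τ) ^ 2 =
      (Real.cos τ - Real.sinc τ) / 2 := by
    rw [Real.sqrt_one, one_mul, Real.sinc_of_ne_zero h0.ne']
    field_simp
  rwa [h5] at h4

/-- Step 2: the tangent -/
theorem step2 {τ w : ℝ} (h0 : 0 < τ) (h1 : τ ≤ Real.pi) (hw0 : 0 ≤ w) (hw1 : w ≤ 1) :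
    Real.sinc τ + (1 - w) / 2 * (Real.sinc τ - Real.cos τ) ≤ Real.sinc (√w * τ) := by
  rcases eq_or_lt_of_le hw1 with rfl | hw
  · rw [Real.sqrt_one, one_mul]
    linarith
  · have h2 := (convex_sinc h0.le h1).slope_le_of_hasDerivWithinAt (x := w) (y := 1) ⟨hw0, hw1⟩
      ⟨zero_le_one, le_rfl⟩ hw (deriv_sinc h0).hasDerivWithinAt
    rw [slope_def_field, Real.sqrt_one, one_mul, div_le_iff₀ (by linarith)] at h2
    linarith

/-- the statement of TF5 -/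
theorem main (u b τ : ℝ) (hu0 : 0 ≤ u) (hu1 : u ≤ 1) (hb0 : 0 ≤ b) (hb1 : b ≤ 1) (h0 : 0 ≤ τ)
    (h1 : τ ≤ Real.pi) :
    (1 - u ^ 2) * (1 - b ^ 2) / 2 * Real.sinc (u * b * τ) * (Real.sinc τ - Real.cos τ) ≤
      Real.sinc (u * τ) * Real.sinc (b * τ) - Real.sinc (u * b * τ) * Real.sinc τ := by
  rcases eq_or_lt_of_le h0 with rfl | hτ
  · simp
  have hu2 : u ^ 2 ≤ 1 := pow_le_one₀ hu0 hu1
  have hb2 : b ^ 2 ≤ 1 := pow_le_one₀ hb0 hb1
  have e1 : √(u ^ 2) = u := Real.sqrt_sq hu0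
  have e2 : √(b ^ 2) = b := Real.sqrt_sq hb0
  have e3 : √(u ^ 2 * b ^ 2) = u * b := by
    rw [← mul_pow]
    exact Real.sqrt_sq (mul_nonneg hu0 hb0)
  have h2 := step1 h0 h1 (sq_nonneg u) hu2 (sq_nonneg b) hb2
  rw [e1, e2, e3] at h2
  have h3 := step2 (w := 1 - (1 - u ^ 2) * (1 - b ^ 2)) hτ h1 (by nlinarith) (by nlinarith)
  have h4 := sinc_nonneg (w := u ^ 2 * b ^ 2) h0 h1 (by positivity) (by nlinarith [sq_nonneg u])
  rw [e3] at h4
  have h5 := mul_le_mul_of_nonneg_left h3 h4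
  nlinarith

end Pool.Agent.H177.TF5

/-- **TF5** -/
theorem Pool.Agent.H177.tf5 : Pool.Agent.H770.GS.S_TF5 := Pool.Agent.H177.TF5.main
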